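import Pool.Agent.W516.MTQ.Main

/-!
# Linear independence of the periods of a motivic basis

Let `M` be a mixed Tate motive over `ℤ`, `a` a rational functional on the Betti realization such
that `1` and the motivic zeta values which occur are among the motivic periods along `a`, and `J` a
set of basis vectors whose motivic periods along `a` are a basis of all motivic periods along `a`.
The periods of the vectors in `J` (of all weights together) are linearly independent over `ℚ` if and
only if the zeta values which occur are irrational and the linear relations with rational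
coefficients between periods along `a` are stable under the matrices `p⁻¹ σ(p)` for all
automorphisms `σ` of the field of complex numbers.
-/

set_option autoImplicit false

namespace Pool.Agent.Results.MP_c2d7b4_nt.HoffmanIndependence

open Matrix Pool.Agent.W516.MTZ Pool.Agent.W516.MTR Pool.Agent.W516.MTQ

theorem result (m X : Type) [Fintype m] [DecidableEq m] [Fintype X] [DecidableEq X]
    (M : Motive m X) (p : (Matrix m m ℂ)ˣ) (hp : p ∈ M.gp)
    (hdeg : ∀ x, Odd (M.deg x) ∧ 3 ≤ M.deg x) (hinj : Function.Injective M.deg)
    (hpi : (p : Matrix m m ℂ) M.t M.t = 2 * Real.pi * Complex.I)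
    (hzeta : ∀ x, (p : Matrix m m ℂ) M.o (M.s x) = riemannZeta (M.deg x))
    (a : m → ℚ) (J : Set m) (hJ : IsMotivicBasis M a J)
    (hone : (fun _ : M.gp => (1 : ℂ)) ∈ Submodule.span ℚ (Set.range (mper M a)))
    (hper : ∀ x, (fun g : M.gp => ((g : (Matrix m m ℂ)ˣ) : Matrix m m ℂ) M.o (M.s x)) ∈
      Submodule.span ℚ (Set.range (mper M a))) :
    LinearIndependent ℚ (fun j : J => per a (p : Matrix m m ℂ) j) ↔
      (∀ (σ : ℂ ≃+* ℂ) (v : m → ℂ), RowAll (per a (p : Matrix m m ℂ)) v →
        RowAll (per a (p : Matrix m m ℂ))
          (v ᵥ* (((p⁻¹ : (Matrix m m ℂ)ˣ) : Matrix m m ℂ) * (p : Matrix m m ℂ).map σ))) ∧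
      ∀ (x : X) (q : ℚ), riemannZeta (M.deg x) ≠ q :=
  (indep_iff hp a J hJ).trans (main_q hp a hdeg hinj hpi hzeta hone hper)

end Pool.Agent.Results.MP_c2d7b4_nt.HoffmanIndependence
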